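import Pool.Agent.Lib.MP_524519_ag.DU5.TR.Iface
import Pool.Agent.Lib.MP_524519_ag.DU4.H63.Lift

/-! # LIFT: specialisation of finitely generated rings with a derivation -/

set_option autoImplicit false

namespace Pool.Agent.DU5.TR

namespace Lift63

/-- the identity map of a subalgebra, seen as a subring -/
def toAlg {R K : Type} [CommRing R] [Field K] [Algebra R K] (M : Subalgebra R K) :
    M.toSubring →+* M where
  toFun x := ⟨x.1, x.2⟩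
  map_one' := rfl
  map_mul' _ _ := rfl
  map_zero' := rfl
  map_add' _ _ := rfl

end Lift63

open Lift63

theorem lift : LiftStatement := by
  intro A₀ K _ _ _ _ _ hinj D S S₀ G hS₀ hG
  obtain ⟨a, ha, h⟩ := Pool.Agent.Lib.MP_524519_ag.DU4.H63.lift hinj D S S₀ G hS₀
    (fun g hg h0 => hG (h0 ▸ hg))
  refine ⟨a, ha, fun F _ _ ρ hρ => ?_⟩
  obtain ⟨B, M, hB, hD, ψ, φ, h1, h2, h3, h4, h5, h6, h7, h8, h9⟩ := h F ρ hρ
  refine ⟨B.toSubring, M.toSubring, ψ.comp (toAlg M), φ.comp (toAlg B), ⟨fun x hx => hB hx,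
    fun x hx => hD x hx, ?_, ?_⟩, h1, h3, ?_, ?_, ?_⟩
  · rintro ⟨b, hb⟩ ⟨b', hb'⟩ (rfl : b = b')
    exact h6 b hb
  · rintro ⟨b, hb⟩ ⟨b', hb'⟩ (rfl : D b = b')
    exact h7 b hb
  · intro x
    exact ⟨⟨algebraMap A₀ K x, algebraMap_mem B x⟩, rfl, h5 x⟩
  · intro c hc
    exact ⟨⟨c, h2 c hc⟩, ψ ⟨c, hB (h2 c hc)⟩, rfl, h8 c hc (h2 c hc)⟩
  · rintro ⟨g, hg⟩ hgG
    exact h9 g hgG hg

end Pool.Agent.DU5.TR
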